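import Mathlib

/-!
# MP_c7e24e_co: no multiple of the average district size is enough slack

For every real number `c` there are a biconnected graph `G` on `n` vertices, a positive integer
`k ≤ n` and a real number `s ≥ c * (n / k)` for which the configuration space `R_s(G, k)` is
disconnected. For `c = 1` this disproves the statement of Q1.
-/

set_option autoImplicit false

namespace Pool.Agent.Results.MP_c7e24e_co.NoSlackSuffices

open Finset

/-- `G` is biconnected: it is connected, has at least three vertices and no cut vertex. -/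
def Biconnected {V : Type} [Fintype V] (G : SimpleGraph V) : Prop :=
  3 ≤ Fintype.card V ∧ G.Connected ∧ ∀ v : V, (G.induce {w | w ≠ v}).Connected

/-- `P` is a connected `k`-partition of `G` that is balanced with slack `s`, a `(k, s)`-BCP. -/
def IsBCP {V : Type} [Fintype V] [DecidableEq V] (G : SimpleGraph V) (k : ℕ) (s : ℝ)
    (P : Finpartition (Finset.univ : Finset V)) : Prop :=
  P.parts.card = k ∧
  ∀ U ∈ P.parts, (G.induce (U : Set V)).Connected ∧
    |(U.card : ℝ) - (Fintype.card V : ℝ) / k| ≤ s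

/-- `P` and `Q` are distinct and two parts of `P` are merged and split again into two parts of `Q`,
all other parts being the same. -/
def Recombine {V : Type} [Fintype V] [DecidableEq V]
    (P Q : Finpartition (Finset.univ : Finset V)) : Prop :=
  P ≠ Q ∧ ∃ U₁ ∈ P.parts, ∃ U₂ ∈ P.parts, ∃ W₁ ∈ Q.parts, ∃ W₂ ∈ Q.parts,
    U₁ ≠ U₂ ∧ W₁ ≠ W₂ ∧ U₁ ∪ U₂ = W₁ ∪ W₂ ∧ P.parts \ {U₁, U₂} = Q.parts \ {W₁, W₂}

/-- The configuration space `R_s(G, k)`. -/
def configSpace {V : Type} [Fintype V] [DecidableEq V] (G : SimpleGraph V) (k : ℕ) (s : ℝ) :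
    SimpleGraph {P : Finpartition (Finset.univ : Finset V) // IsBCP G k s P} where
  Adj P Q := Recombine P.1 Q.1
  symm := ⟨by
    rintro P Q ⟨hne, U₁, hU₁, U₂, hU₂, W₁, hW₁, W₂, hW₂, h1, h2, h3, h4⟩
    exact ⟨hne.symm, W₁, hW₁, W₂, hW₂, U₁, hU₁, U₂, hU₂, h2, h1, h3.symm, h4.symm⟩⟩
  loopless := ⟨fun P h => h.1 rfl⟩

/-- The vertices: five hubs, a leaf for every pair `(i, j)`, and `F` free leaves. -/
abbrev Vt (m F : ℕ) : Type := Fin 5 ⊕ ((Fin 5 × Fin m) ⊕ Fin F)

/-- `0 → 1 → 2 → 0` and `3 → 4 → 3`. -/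
def sg : Fin 5 → Fin 5 := ![1, 2, 0, 4, 3]

lemma sg_inj : Function.Injective sg := by decide

lemma sg_ne : ∀ a, sg a ≠ a := by decide

/-- the leaf `x` is joined to the hub `h` -/
def nb {m F : ℕ} (x : (Fin 5 × Fin m) ⊕ Fin F) (h : Fin 5) : Prop :=
  match x with
  | Sum.inl p => p.1 = h ∨ sg p.1 = h
  | Sum.inr _ => 3 = h ∨ 4 = h

/-- The graph: the hubs form a clique, the leaf `(i, j)` is joined to the hubs `i` and `sg i`, the
free leaves are joined to the hubs `3` and `4`. -/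
def Gr (m F : ℕ) : SimpleGraph (Vt m F) where
  Adj x y := match x, y with
    | Sum.inl a, Sum.inl b => a ≠ b
    | Sum.inl a, Sum.inr y => nb y a
    | Sum.inr x, Sum.inl b => nb x b
    | Sum.inr _, Sum.inr _ => False
  symm := ⟨by
    rintro (a | x) (b | y) h
    · exact Ne.symm h
    · exact h
    · exact h
    · exact h⟩
  loopless := ⟨by
    rintro (a | x) h
    · exact h rfl
    · exact h⟩

lemma adj_hh {m F : ℕ} {a b : Fin 5} : (Gr m F).Adj (Sum.inl a) (Sum.inl b) ↔ a ≠ b := Iff.rfl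

lemma adj_hl {m F : ℕ} {a : Fin 5} {y : (Fin 5 × Fin m) ⊕ Fin F} :
    (Gr m F).Adj (Sum.inl a) (Sum.inr y) ↔ nb y a := Iff.rfl

lemma adj_lh {m F : ℕ} {a : Fin 5} {y : (Fin 5 × Fin m) ⊕ Fin F} :
    (Gr m F).Adj (Sum.inr y) (Sum.inl a) ↔ nb y a := Iff.rfl

lemma adj_ll {m F : ℕ} {x y : (Fin 5 × Fin m) ⊕ Fin F} :
    ¬ (Gr m F).Adj (Sum.inr x) (Sum.inr y) := fun h => h

lemma exists_nb {m F : ℕ} (x : (Fin 5 × Fin m) ⊕ Fin F) :
    ∃ a b : Fin 5, a ≠ b ∧ nb x a ∧ nb x b := by
  rcases x with p | f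
  · exact ⟨p.1, sg p.1, (sg_ne _).symm, Or.inl rfl, Or.inr rfl⟩
  · exact ⟨3, 4, by decide, Or.inl rfl, Or.inr rfl⟩

/-- every leaf has a neighbouring hub different from a given one -/
lemma exists_nb_ne {m F : ℕ} (x : (Fin 5 × Fin m) ⊕ Fin F) (c : Fin 5) :
    ∃ a : Fin 5, a ≠ c ∧ nb x a := by
  obtain ⟨a, b, hab, ha, hb⟩ := exists_nb x
  by_cases h : a = c
  · exact ⟨b, fun h' => hab (h.trans h'.symm), hb⟩
  · exact ⟨a, h, ha⟩

lemma card_Vt (m F : ℕ) : Fintype.card (Vt m F) = 5 * m + (5 + F) := by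
  simp [Fintype.card_sum, Fintype.card_prod]
  ring

/-- the graph is biconnected -/
lemma biconnected (m F : ℕ) : Biconnected (Gr m F) := by
  have hkey : ∀ v : Vt m F, ((Gr m F).induce {w | w ≠ v}).Connected := by
    intro v
    have hub : ∃ c : Fin 5, (Sum.inl c : Vt m F) ≠ v := by
      by_cases h : (Sum.inl 0 : Vt m F) = v
      · exact ⟨1, fun h' => by rw [← h] at h'; exact absurd (Sum.inl_injective h') (by decide)⟩
      · exact ⟨0, h⟩
    obtain ⟨c, hc⟩ := hub
    have hh : ∀ (a : Fin 5) (ha : (Sum.inl a : Vt m F) ≠ v),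
        ((Gr m F).induce {w | w ≠ v}).Reachable ⟨Sum.inl a, ha⟩ ⟨Sum.inl c, hc⟩ := by
      intro a ha
      by_cases hac : a = c
      · subst hac
        exact SimpleGraph.Reachable.refl _
      · apply SimpleGraph.Adj.reachable
        show (Gr m F).Adj (Sum.inl a) (Sum.inl c)
        exact hac
    have hr : ∀ x : {w | w ≠ v},
        ((Gr m F).induce {w | w ≠ v}).Reachable x ⟨Sum.inl c, hc⟩ := by
      rintro ⟨a | x, hx⟩
      · exact hh a hx
      · have : ∃ a : Fin 5, (Sum.inl a : Vt m F) ≠ v ∧ nb x a := by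
          rcases v with d | y
          · obtain ⟨a, ha, h⟩ := exists_nb_ne x d
            exact ⟨a, fun h' => ha (Sum.inl_injective h'), h⟩
          · obtain ⟨a, b, -, h, -⟩ := exists_nb x
            exact ⟨a, Sum.inl_ne_inr, h⟩
        obtain ⟨a, ha, hn⟩ := this
        have h1 : ((Gr m F).induce {w | w ≠ v}).Adj ⟨Sum.inr x, hx⟩ ⟨Sum.inl a, ha⟩ := by
          show (Gr m F).Adj (Sum.inr x) (Sum.inl a)
          exact hn
        exact h1.reachable.trans (hh a ha)
    rw [SimpleGraph.connected_iff]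
    exact ⟨fun x y => (hr x).trans (hr y).symm, ⟨⟨Sum.inl c, hc⟩⟩⟩
  refine ⟨?_, ?_, hkey⟩
  · rw [card_Vt]
    omega
  · have hr : ∀ x : Vt m F, (Gr m F).Reachable x (Sum.inl 0) := by
      have hh : ∀ a : Fin 5, (Gr m F).Reachable (Sum.inl a) (Sum.inl 0) := by
        intro a
        by_cases h : a = 0
        · subst h
          exact SimpleGraph.Reachable.refl _
        · exact SimpleGraph.Adj.reachable (adj_hh.2 h)
      rintro (a | x)
      · exact hh a
      · obtain ⟨a, b, -, h, -⟩ := exists_nb x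
        exact (SimpleGraph.Adj.reachable (adj_lh.2 h)).trans (hh a)
    rw [SimpleGraph.connected_iff]
    exact ⟨fun x y => (hr x).trans (hr y).symm, ⟨Sum.inl 0⟩⟩

/-- in a connected induced subgraph with two different vertices every vertex has a neighbour -/
lemma exists_adj_of_connected {V : Type} {G : SimpleGraph V} {U : Finset V}
    (h : (G.induce (U : Set V)).Connected) {x y : V} (hx : x ∈ U) (hy : y ∈ U) (hxy : x ≠ y) :
    ∃ z ∈ U, G.Adj x z := by
  obtain ⟨w⟩ := h.preconnected ⟨x, hx⟩ ⟨y, hy⟩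
  cases w with
  | nil => exact absurd rfl hxy
  | cons hadj _ => exact ⟨_, Subtype.coe_prop _, hadj⟩

section structure_of_partitions

variable {m F : ℕ} {P : Finpartition (Finset.univ : Finset (Vt m F))}

/-- the part of the hub `a` -/
def D (P : Finpartition (Finset.univ : Finset (Vt m F))) (a : Fin 5) : Finset (Vt m F) :=
  P.part (Sum.inl a)

lemma D_mem (a : Fin 5) : D P a ∈ P.parts := by
  unfold D
  rw [P.part_mem]
  exact Finset.mem_univ _

lemma mem_D (a : Fin 5) : Sum.inl a ∈ D P a := by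
  unfold D
  rw [P.mem_part_self]
  exact Finset.mem_univ _

lemma card_no_hub (hc : ∀ U ∈ P.parts, ((Gr m F).induce (U : Set (Vt m F))).Connected)
    {U : Finset (Vt m F)} (hU : U ∈ P.parts) (hno : ∀ a, Sum.inl a ∉ U) : U.card = 1 := by
  obtain ⟨x, hx⟩ := P.nonempty_of_mem_parts hU
  apply le_antisymm _ (Finset.card_pos.2 ⟨x, hx⟩)
  rw [Finset.card_le_one]
  intro u hu v hv
  by_contra hne
  obtain ⟨z, hz, hadj⟩ := exists_adj_of_connected (hc U hU) hu hv hne
  rcases u with a | u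
  · exact hno a hu
  · rcases z with b | z
    · exact hno b hz
    · exact adj_ll hadj

lemma main_count (hm : 1 ≤ m) (hk : P.parts.card = 5 + F)
    (hc : ∀ U ∈ P.parts, ((Gr m F).induce (U : Set (Vt m F))).Connected)
    (hs : ∀ U ∈ P.parts, U.card ≤ m + 1) :
    (∀ a b, D P a = D P b → a = b) ∧ ∀ a, (D P a).card = m + 1 := by
  classical
  set H : Finset (Finset (Vt m F)) := Finset.univ.image (D P) with hH
  have hHsub : H ⊆ P.parts := by
    intro U hU
    rw [hH, Finset.mem_image] at hU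
    obtain ⟨a, -, rfl⟩ := hU
    exact D_mem a
  have hHcard : H.card ≤ 5 := by
    calc H.card ≤ (Finset.univ : Finset (Fin 5)).card := Finset.card_image_le
      _ = 5 := by simp
  have hsum : ∑ U ∈ P.parts, U.card = 5 * m + (5 + F) := by
    rw [P.sum_card_parts, Finset.card_univ, card_Vt]
  have hsplit : ∑ U ∈ P.parts, U.card = ∑ U ∈ P.parts \ H, U.card + ∑ U ∈ H, U.card :=
    (Finset.sum_sdiff hHsub).symm
  have hone : ∑ U ∈ P.parts \ H, U.card = (P.parts \ H).card := by
    rw [Finset.card_eq_sum_ones]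
    apply Finset.sum_congr rfl
    intro U hU
    rw [Finset.mem_sdiff] at hU
    apply card_no_hub hc hU.1
    intro a ha
    apply hU.2
    rw [hH, Finset.mem_image]
    exact ⟨a, Finset.mem_univ _, P.part_eq_of_mem hU.1 ha⟩
  have hcd : (P.parts \ H).card = 5 + F - H.card := by
    rw [Finset.card_sdiff_of_subset hHsub, hk]
  have hle : ∑ U ∈ H, U.card ≤ H.card * (m + 1) :=
    Finset.sum_le_card_nsmul _ _ _ (fun U hU => hs U (hHsub hU))
  have hHcard' : H.card ≤ 5 + F := by omega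
  have h5 : H.card = 5 := by
    have h1 : ∑ U ∈ H, U.card = 5 * m + H.card := by omega
    rw [h1] at hle
    have h2 : 5 * m ≤ H.card * m := by
      have : H.card * (m + 1) = H.card * m + H.card := by ring
      omega
    have h3 : 5 ≤ H.card := Nat.le_of_mul_le_mul_right h2 (by omega)
    omega
  have hinj : Function.Injective (D P) := by
    have : Set.InjOn (D P) ((Finset.univ : Finset (Fin 5)) : Set (Fin 5)) := by
      apply Finset.card_image_iff.1
      rw [← hH, h5]
      simp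
    intro a b hab
    exact this (by simp) (by simp) hab
  refine ⟨fun a b h => hinj h, ?_⟩
  have h1 : ∑ U ∈ H, U.card = ∑ a : Fin 5, (D P a).card := by
    rw [hH, Finset.sum_image (fun a _ b _ h => hinj h)]
  have h2 : ∑ a : Fin 5, (D P a).card = ∑ _a : Fin 5, (m + 1) := by
    rw [← h1]
    simp only [Finset.sum_const, Finset.card_univ, Fintype.card_fin, smul_eq_mul]
    omega
  have h3 : ∀ a ∈ (Finset.univ : Finset (Fin 5)), (D P a).card = m + 1 :=
    (Finset.sum_eq_sum_iff_of_le (fun a _ => hs _ (D_mem a))).1 h2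
  exact fun a => h3 a (Finset.mem_univ _)

/-- the hub `a` with its leaves `(a, j)` -/
def S (m F : ℕ) (a : Fin 5) : Finset (Vt m F) :=
  insert (Sum.inl a) (Finset.univ.image fun j : Fin m => Sum.inr (Sum.inl (a, j)))

lemma hub_mem_S {a b : Fin 5} : (Sum.inl b : Vt m F) ∈ S m F a ↔ b = a := by
  unfold S
  simp

lemma leaf_mem_S {a : Fin 5} {x : (Fin 5 × Fin m) ⊕ Fin F} :
    (Sum.inr x : Vt m F) ∈ S m F a ↔ ∃ j, x = Sum.inl (a, j) := by
  unfold S
  rw [Finset.mem_insert, Finset.mem_image]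
  constructor
  · rintro (h | ⟨j, -, h⟩)
    · exact absurd h Sum.inr_ne_inl
    · exact ⟨j, (Sum.inr_injective h).symm⟩
  · rintro ⟨j, rfl⟩
    exact Or.inr ⟨j, Finset.mem_univ _, rfl⟩

lemma card_S (a : Fin 5) : (S m F a).card = m + 1 := by
  unfold S
  rw [Finset.card_insert_of_notMem, Finset.card_image_of_injective]
  · simp
  · intro j j' h
    simpa using h
  · simp

lemma step_S (hm : 1 ≤ m) (hk : P.parts.card = 5 + F)
    (hc : ∀ U ∈ P.parts, ((Gr m F).induce (U : Set (Vt m F))).Connected)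
    (hs : ∀ U ∈ P.parts, U.card ≤ m + 1) {a : Fin 5} (ha : a ≠ 3 ∧ a ≠ 4)
    (hS : S m F a ∈ P.parts) : S m F (sg a) ∈ P.parts := by
  obtain ⟨hinj, hcard⟩ := main_count hm hk hc hs
  have hsub : D P (sg a) ⊆ S m F (sg a) := by
    intro x hx
    by_cases hxa : x = Sum.inl (sg a)
    · subst hxa
      rw [hub_mem_S]
    · obtain ⟨z, hz, hadj⟩ := exists_adj_of_connected (hc _ (D_mem (sg a))) hx (mem_D _) hxa
      rcases x with b | x
      · exfalso
        apply hxa
        rw [hinj b (sg a) (P.part_eq_of_mem (D_mem _) hx)]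
      · rcases z with b | z
        · have hb : b = sg a := hinj b (sg a) (P.part_eq_of_mem (D_mem _) hz)
          subst hb
          rw [adj_lh] at hadj
          rw [leaf_mem_S]
          rcases x with ⟨i, j⟩ | f
          · rcases hadj with h | h
            · exact ⟨j, by rw [← h]⟩
            · have hia : i = a := sg_inj h
              subst hia
              exfalso
              have h1 : (Sum.inr (Sum.inl (i, j)) : Vt m F) ∈ S m F i :=
                leaf_mem_S.2 ⟨j, rfl⟩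
              have h2 := P.eq_of_mem_parts (D_mem (sg i)) hS hx h1
              have h3 := mem_D (P := P) (sg i)
              rw [h2, hub_mem_S] at h3
              exact sg_ne _ h3
          · exfalso
            obtain ⟨h3, h4⟩ := ha
            have : ∀ a : Fin 5, a ≠ 3 → a ≠ 4 → ¬ (3 = sg a ∨ 4 = sg a) := by decide
            exact this a h3 h4 hadj
        · exact absurd hadj adj_ll
  have heq : D P (sg a) = S m F (sg a) :=
    Finset.eq_of_subset_of_card_le hsub (by rw [card_S, hcard])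
  rw [← heq]
  exact D_mem _

lemma all_S (hm : 1 ≤ m) (hk : P.parts.card = 5 + F)
    (hc : ∀ U ∈ P.parts, ((Gr m F).induce (U : Set (Vt m F))).Connected)
    (hs : ∀ U ∈ P.parts, U.card ≤ m + 1)
    (h : S m F 0 ∈ P.parts ∨ S m F 1 ∈ P.parts ∨ S m F 2 ∈ P.parts) :
    S m F 0 ∈ P.parts ∧ S m F 1 ∈ P.parts ∧ S m F 2 ∈ P.parts := by
  have h01 : S m F 0 ∈ P.parts → S m F 1 ∈ P.parts :=
    fun h => step_S hm hk hc hs (a := 0) (by decide) h
  have h12 : S m F 1 ∈ P.parts → S m F 2 ∈ P.parts :=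
    fun h => step_S hm hk hc hs (a := 1) (by decide) h
  have h20 : S m F 2 ∈ P.parts → S m F 0 ∈ P.parts :=
    fun h => step_S hm hk hc hs (a := 2) (by decide) h
  rcases h with h | h | h
  · exact ⟨h, h01 h, h12 (h01 h)⟩
  · exact ⟨h20 (h12 h), h, h12 h⟩
  · exact ⟨h20 h, h01 (h20 h), h⟩

lemma S_ne {a b : Fin 5} (hab : a ≠ b) : S m F a ≠ S m F b := by
  intro h
  have h1 : (Sum.inl a : Vt m F) ∈ S m F a := hub_mem_S.2 rfl
  rw [h, hub_mem_S] at h1
  exact hab h1

lemma move_S {P Q : Finpartition (Finset.univ : Finset (Vt m F))} (hPQ : Recombine P Q)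
    (h : S m F 0 ∈ P.parts ∧ S m F 1 ∈ P.parts ∧ S m F 2 ∈ P.parts) :
    S m F 0 ∈ Q.parts ∨ S m F 1 ∈ Q.parts ∨ S m F 2 ∈ Q.parts := by
  obtain ⟨-, U₁, hU₁, U₂, hU₂, W₁, hW₁, W₂, hW₂, -, -, -, h4⟩ := hPQ
  have key : ∀ a, S m F a ∈ P.parts → S m F a ≠ U₁ → S m F a ≠ U₂ → S m F a ∈ Q.parts := by
    intro a ha h1 h2
    have : S m F a ∈ P.parts \ {U₁, U₂} := by
      rw [Finset.mem_sdiff]
      refine ⟨ha, ?_⟩
      simp only [Finset.mem_insert, Finset.mem_singleton, not_or]
      exact ⟨h1, h2⟩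
    rw [h4] at this
    exact (Finset.mem_sdiff.1 this).1
  obtain ⟨h0, h1, h2⟩ := h
  have n01 : S m F 0 ≠ S m F 1 := S_ne (by decide)
  have n02 : S m F 0 ≠ S m F 2 := S_ne (by decide)
  have n12 : S m F 1 ≠ S m F 2 := S_ne (by decide)
  by_contra hcon
  simp only [not_or] at hcon
  obtain ⟨c0, c1, c2⟩ := hcon
  have k0 : S m F 0 = U₁ ∨ S m F 0 = U₂ := by
    by_contra hh
    simp only [not_or] at hh
    exact c0 (key 0 h0 hh.1 hh.2)
  have k1 : S m F 1 = U₁ ∨ S m F 1 = U₂ := by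
    by_contra hh
    simp only [not_or] at hh
    exact c1 (key 1 h1 hh.1 hh.2)
  have k2 : S m F 2 = U₁ ∨ S m F 2 = U₂ := by
    by_contra hh
    simp only [not_or] at hh
    exact c2 (key 2 h2 hh.1 hh.2)
  rcases k0 with k0 | k0 <;> rcases k1 with k1 | k1 <;> rcases k2 with k2 | k2
  · exact n01 (k0.trans k1.symm)
  · exact n01 (k0.trans k1.symm)
  · exact n02 (k0.trans k2.symm)
  · exact n12 (k1.trans k2.symm)
  · exact n12 (k1.trans k2.symm)
  · exact n02 (k0.trans k2.symm)
  · exact n01 (k0.trans k1.symm)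
  · exact n01 (k0.trans k1.symm)

end structure_of_partitions

section two_partitions

variable {m F : ℕ}

/-- the label of a vertex, for a map `r` on the hubs -/
def lbl (r : Fin 5 → Fin 5) : Vt m F → Fin 5 ⊕ Fin F
  | Sum.inl a => Sum.inl a
  | Sum.inr (Sum.inl p) => Sum.inl (r p.1)
  | Sum.inr (Sum.inr f) => Sum.inr f

/-- the class of a label -/
def cls (r : Fin 5 → Fin 5) (l : Fin 5 ⊕ Fin F) : Finset (Vt m F) :=
  Finset.univ.filter fun v => lbl r v = l

lemma mem_cls {r : Fin 5 → Fin 5} {l : Fin 5 ⊕ Fin F} {v : Vt m F} :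
    v ∈ cls r l ↔ lbl r v = l := by
  unfold cls
  simp

lemma cls_nonempty (r : Fin 5 → Fin 5) (l : Fin 5 ⊕ Fin F) : (cls (m := m) r l).Nonempty := by
  rcases l with a | f
  · exact ⟨Sum.inl a, mem_cls.2 rfl⟩
  · exact ⟨Sum.inr (Sum.inr f), mem_cls.2 rfl⟩

lemma cls_inj (r : Fin 5 → Fin 5) : Function.Injective (cls (m := m) (F := F) r) := by
  intro l l' h
  obtain ⟨v, hv⟩ := cls_nonempty (m := m) r l
  have h1 := mem_cls.1 hv
  rw [h] at hv
  rw [← h1, mem_cls.1 hv]

/-- the partition into classes -/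
def Pt (m F : ℕ) (r : Fin 5 → Fin 5) : Finpartition (Finset.univ : Finset (Vt m F)) :=
  Finpartition.ofExistsUnique (Finset.univ.image (cls r)) (fun _ _ => Finset.subset_univ _)
    (by
      intro v _
      refine ⟨cls r (lbl r v), ⟨Finset.mem_image_of_mem _ (Finset.mem_univ _), mem_cls.2 rfl⟩, ?_⟩
      rintro U ⟨hU, hv⟩
      obtain ⟨l, -, rfl⟩ := Finset.mem_image.1 hU
      rw [mem_cls.1 hv])
    (by
      intro h
      obtain ⟨l, -, h⟩ := Finset.mem_image.1 h
      exact (cls_nonempty (m := m) r l).ne_empty h)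

lemma Pt_parts (r : Fin 5 → Fin 5) : (Pt m F r).parts = Finset.univ.image (cls r) := rfl

lemma Pt_card (r : Fin 5 → Fin 5) : (Pt m F r).parts.card = 5 + F := by
  rw [Pt_parts, Finset.card_image_of_injective _ (cls_inj r)]
  simp

lemma cls_connected (r : Fin 5 → Fin 5) (hr : ∀ i, i = r i ∨ sg i = r i) (l : Fin 5 ⊕ Fin F) :
    ((Gr m F).induce ((cls r l : Finset (Vt m F)) : Set (Vt m F))).Connected := by
  rcases l with a | f
  · have ha : (Sum.inl a : Vt m F) ∈ ((cls r (Sum.inl a) : Finset (Vt m F)) : Set (Vt m F)) :=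
      Finset.mem_coe.2 (mem_cls.2 rfl)
    have h : ∀ x : ((cls r (Sum.inl a) : Finset (Vt m F)) : Set (Vt m F)),
        ((Gr m F).induce ((cls r (Sum.inl a) : Finset (Vt m F)) : Set (Vt m F))).Reachable x ⟨Sum.inl a, ha⟩ := by
      rintro ⟨b | x, hx⟩
      · have hb : b = a := Sum.inl_injective (mem_cls.1 (Finset.mem_coe.1 hx))
        subst hb
        exact SimpleGraph.Reachable.refl _
      · apply SimpleGraph.Adj.reachable
        show (Gr m F).Adj (Sum.inr x) (Sum.inl a)
        rw [adj_lh]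
        have hx' := mem_cls.1 (Finset.mem_coe.1 hx)
        rcases x with p | f
        · have h1 : r p.1 = a := Sum.inl_injective hx'
          rcases hr p.1 with h | h
          · exact Or.inl (h.trans h1)
          · exact Or.inr (h.trans h1)
        · exact absurd hx' Sum.inr_ne_inl
    rw [SimpleGraph.connected_iff]
    exact ⟨fun x y => (h x).trans (h y).symm, ⟨⟨Sum.inl a, ha⟩⟩⟩
  · have ha : (Sum.inr (Sum.inr f) : Vt m F) ∈ ((cls r (Sum.inr f) : Finset (Vt m F)) : Set (Vt m F)) :=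
      Finset.mem_coe.2 (mem_cls.2 rfl)
    have h : ∀ x : ((cls r (Sum.inr f) : Finset (Vt m F)) : Set (Vt m F)),
        x = ⟨Sum.inr (Sum.inr f), ha⟩ := by
      rintro ⟨b | p | g, hx⟩
      · exact absurd (mem_cls.1 (Finset.mem_coe.1 hx)) Sum.inl_ne_inr
      · exact absurd (mem_cls.1 (Finset.mem_coe.1 hx)) Sum.inl_ne_inr
      · have hg : g = f := Sum.inr_injective (mem_cls.1 (Finset.mem_coe.1 hx))
        subst hg
        rfl
    rw [SimpleGraph.connected_iff]
    refine ⟨fun x y => ?_, ⟨⟨Sum.inr (Sum.inr f), ha⟩⟩⟩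
    rw [h x, h y]

lemma cls_card_le (r : Fin 5 → Fin 5) (hr : Function.Injective r) (l : Fin 5 ⊕ Fin F) :
    (cls (m := m) r l).card ≤ m + 1 := by
  rcases l with a | f
  · have hsub : cls (m := m) (F := F) r (Sum.inl a) ⊆ insert (Sum.inl a)
        (((Finset.univ : Finset (Fin m)).biUnion fun j =>
          (Finset.univ.filter fun v : Vt m F => ∃ i, r i = a ∧ v = Sum.inr (Sum.inl (i, j))))) := by
      intro v hv
      have hv' := mem_cls.1 hv
      rw [Finset.mem_insert]
      rcases v with b | ⟨i, j⟩ | f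
      · left
        rw [Sum.inl_injective hv']
      · right
        rw [Finset.mem_biUnion]
        exact ⟨j, Finset.mem_univ _, by
          rw [Finset.mem_filter]
          exact ⟨Finset.mem_univ _, i, Sum.inl_injective hv', rfl⟩⟩
      · exact absurd hv' Sum.inr_ne_inl
    refine (Finset.card_le_card hsub).trans ((Finset.card_insert_le _ _).trans ?_)
    apply Nat.succ_le_succ
    calc _ ≤ (Finset.univ : Finset (Fin m)).card * 1 := by
          apply Finset.card_biUnion_le_card_mul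
          intro j _
          rw [Finset.card_le_one]
          intro u hu v hv
          rw [Finset.mem_filter] at hu hv
          obtain ⟨-, i, hi, rfl⟩ := hu
          obtain ⟨-, i', hi', rfl⟩ := hv
          rw [hr (hi.trans hi'.symm)]
      _ = m := by simp
  · have : cls (m := m) (F := F) r (Sum.inr f) ⊆ {Sum.inr (Sum.inr f)} := by
      intro v hv
      have hv' := mem_cls.1 hv
      rw [Finset.mem_singleton]
      rcases v with b | ⟨i, j⟩ | g
      · exact absurd hv' Sum.inl_ne_inr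
      · exact absurd hv' Sum.inl_ne_inr
      · rw [Sum.inr_injective hv']
    refine (Finset.card_le_card this).trans ?_
    rw [Finset.card_singleton]
    omega

lemma S_mem_Pt_id (a : Fin 5) : S m F a ∈ (Pt m F id).parts := by
  rw [Pt_parts, Finset.mem_image]
  refine ⟨Sum.inl a, Finset.mem_univ _, ?_⟩
  ext v
  rw [mem_cls]
  rcases v with b | ⟨i, j⟩ | f
  · rw [hub_mem_S]
    exact ⟨fun h => Sum.inl_injective h, fun h => by rw [h]; rfl⟩
  · rw [leaf_mem_S]
    constructor
    · intro h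
      have : i = a := Sum.inl_injective h
      exact ⟨j, by rw [this]⟩
    · rintro ⟨j', h⟩
      have h1 : (i, j) = (a, j') := Sum.inl_injective h
      have h2 : i = a := congrArg Prod.fst h1
      rw [h2]
      rfl
  · rw [leaf_mem_S]
    constructor
    · intro h
      exact absurd h Sum.inr_ne_inl
    · rintro ⟨j', h⟩
      exact absurd h Sum.inr_ne_inl

lemma S_notMem_Pt_sg (hm : 1 ≤ m) (a : Fin 5) : S m F a ∉ (Pt m F sg).parts := by
  rw [Pt_parts, Finset.mem_image]
  rintro ⟨l, -, hl⟩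
  have h1 : (Sum.inl a : Vt m F) ∈ cls sg l := by
    rw [hl]
    exact hub_mem_S.2 rfl
  have h2 : (Sum.inr (Sum.inl (a, ⟨0, hm⟩)) : Vt m F) ∈ cls sg l := by
    rw [hl]
    exact leaf_mem_S.2 ⟨_, rfl⟩
  have h3 : (Sum.inl a : Fin 5 ⊕ Fin F) = Sum.inl (sg a) :=
    (mem_cls.1 h1).trans (mem_cls.1 h2).symm
  exact sg_ne a (Sum.inl_injective h3).symm

end two_partitions

/-- the configuration space is disconnected for every slack that allows at most `m + 1` vertices
in a district and has no lower bound on the number of vertices of a district -/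
lemma not_preconnected {m F : ℕ} (hm : 1 ≤ m) (s : ℝ)
    (hs : s = (m : ℝ) + 1 - (Fintype.card (Vt m F) : ℝ) / ((5 + F : ℕ) : ℝ))
    (hs' : (Fintype.card (Vt m F) : ℝ) / ((5 + F : ℕ) : ℝ) ≤ s) :
    ¬ (configSpace (Gr m F) (5 + F) s).Preconnected := by
  intro hcon
  have hval : ∀ r : Fin 5 → Fin 5, Function.Injective r → (∀ i, i = r i ∨ sg i = r i) →
      IsBCP (Gr m F) (5 + F) s (Pt m F r) := by
    intro r hr hr'
    refine ⟨Pt_card r, ?_⟩
    intro U hU
    rw [Pt_parts, Finset.mem_image] at hU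
    obtain ⟨l, -, rfl⟩ := hU
    refine ⟨cls_connected r hr' l, ?_⟩
    have h1 : ((cls (m := m) r l).card : ℝ) ≤ (m : ℝ) + 1 := by
      exact_mod_cast cls_card_le r hr l
    have h2 : (0 : ℝ) ≤ ((cls (m := m) r l).card : ℝ) := Nat.cast_nonneg _
    rw [abs_le]
    constructor <;> linarith
  have hmax : ∀ P : {P : Finpartition (Finset.univ : Finset (Vt m F)) //
      IsBCP (Gr m F) (5 + F) s P}, ∀ U ∈ P.1.parts, U.card ≤ m + 1 := by
    intro P U hU
    have h1 := (abs_le.1 (P.2.2 U hU).2).2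
    have h2 : (U.card : ℝ) ≤ ((m + 1 : ℕ) : ℝ) := by
      push_cast
      linarith
    exact_mod_cast h2
  have hinv : ∀ P Q : {P : Finpartition (Finset.univ : Finset (Vt m F)) //
      IsBCP (Gr m F) (5 + F) s P}, (configSpace (Gr m F) (5 + F) s).Reachable P Q →
      (S m F 0 ∈ P.1.parts ∧ S m F 1 ∈ P.1.parts ∧ S m F 2 ∈ P.1.parts) →
      (S m F 0 ∈ Q.1.parts ∧ S m F 1 ∈ Q.1.parts ∧ S m F 2 ∈ Q.1.parts) := by
    rintro P Q ⟨w⟩
    induction w with
    | nil => exact fun h => h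
    | cons hadj _ ih =>
      intro h
      apply ih
      rename_i u v w' _
      exact all_S hm v.2.1 (fun U hU => (v.2.2 U hU).1) (hmax v) (move_S hadj h)
  have h1 := hinv ⟨Pt m F id, hval id Function.injective_id (fun i => Or.inl rfl)⟩
    ⟨Pt m F sg, hval sg sg_inj (fun i => Or.inr rfl)⟩ (hcon _ _)
    ⟨S_mem_Pt_id 0, S_mem_Pt_id 1, S_mem_Pt_id 2⟩
  exact S_notMem_Pt_sg hm 0 h1.1

theorem result (c : ℝ) :
    ∃ (V : Type) (_ : Fintype V) (_ : DecidableEq V) (G : SimpleGraph V) (k : ℕ) (s : ℝ),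
      Biconnected G ∧ 1 ≤ k ∧ k ≤ Fintype.card V ∧
      (Fintype.card V : ℝ) / k ≤ s ∧ c * ((Fintype.card V : ℝ) / k) ≤ s ∧
      ∃ P Q : {P : Finpartition (Finset.univ : Finset V) // IsBCP G k s P},
        ¬ (configSpace G k s).Reachable P Q := by
  obtain ⟨d, hd1, hd2⟩ : ∃ d : ℕ, 1 ≤ d ∧ c ≤ (d : ℝ) := by
    obtain ⟨d, hd⟩ := exists_nat_ge c
    exact ⟨d + 1, by omega, hd.trans (by exact_mod_cast Nat.le_succ d)⟩
  obtain ⟨F, hF⟩ : ∃ F : ℕ, 5 + F = 5 * (d + 1) ^ 2 := by
    refine ⟨5 * (d + 1) ^ 2 - 5, ?_⟩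
    have : 1 ≤ (d + 1) ^ 2 := Nat.one_le_pow _ _ (by omega)
    omega
  have hd0 : (0 : ℝ) < (d : ℝ) + 1 := by positivity
  have hn : (Fintype.card (Vt (d + 1) F) : ℝ) = 5 * (d + 1) * (d + 2) := by
    rw [card_Vt, hF]
    push_cast
    ring
  have hk : (((5 + F : ℕ)) : ℝ) = 5 * (d + 1) ^ 2 := by
    rw [hF]
    push_cast
    ring
  have hq : (Fintype.card (Vt (d + 1) F) : ℝ) / ((5 + F : ℕ) : ℝ) = (d + 2) / (d + 1) := by
    rw [hn, hk]
    field_simp
  set s : ℝ := ((d + 1 : ℕ) : ℝ) + 1 - (Fintype.card (Vt (d + 1) F) : ℝ) / ((5 + F : ℕ) : ℝ)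
    with hs
  have hs2 : s = d * ((d + 2) / (d + 1)) := by
    rw [hs, hq]
    push_cast
    field_simp
    ring
  have hpos : (0 : ℝ) ≤ (d + 2) / (d + 1) := by positivity
  have h1 : (Fintype.card (Vt (d + 1) F) : ℝ) / ((5 + F : ℕ) : ℝ) ≤ s := by
    rw [hs2, hq]
    have : (1 : ℝ) ≤ d := by exact_mod_cast hd1
    nlinarith
  have h2 : c * ((Fintype.card (Vt (d + 1) F) : ℝ) / ((5 + F : ℕ) : ℝ)) ≤ s := by
    rw [hs2, hq]
    exact mul_le_mul_of_nonneg_right hd2 hpos
  have h3 := not_preconnected (m := d + 1) (F := F) (by omega) s hs h1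
  have h4 : ∃ P Q : {P : Finpartition (Finset.univ : Finset (Vt (d + 1) F)) //
      IsBCP (Gr (d + 1) F) (5 + F) s P},
      ¬ (configSpace (Gr (d + 1) F) (5 + F) s).Reachable P Q := by
    by_contra hcon
    push Not at hcon
    exact h3 hcon
  refine ⟨Vt (d + 1) F, inferInstance, inferInstance, Gr (d + 1) F, 5 + F, s,
    biconnected _ _, by omega, ?_, h1, h2, h4⟩
  rw [card_Vt]
  omega

end Pool.Agent.Results.MP_c7e24e_co.NoSlackSuffices
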